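import Mathlib
import Pool.Agent.P.MP_438bde_an.HDefs
import Pool.Agent.P.MP_438bde_an.HMain

open Multi438

namespace Pool.Agent.Results.MP_438bde_an.RelativeBound

/-- Multivalued generalized T-pseudomonotone perturbations with local relative bounds below κ:
the equation y + w = f is solvable under the sign condition exactly when κ ≤ 1. -/
theorem result : ∀ κ : ℝ,
  (∀ (X : Type) [NormedAddCommGroup X] [NormedSpace ℝ X] [CompleteSpace X], Reflexive X →
    ∀ T S : X → Set (StrongDual ℝ X), MaxMono T →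
      (∀ x : X, (T x).Nonempty → Convex ℝ (S x)) → RelBound κ T S → GenPseudo T S →
      ∀ (f : StrongDual ℝ X) (R : ℝ),
        (∀ x : X, ∀ y ∈ T x, ∀ w ∈ S x, R ≤ ‖x‖ → f x < (y + w) x) →
        ∃ x : X, ∃ y ∈ T x, ∃ w ∈ S x, y + w = f) ↔ κ ≤ 1 := by
  intro κ
  refine ⟨fun h => main_neg κ fun hrefl T S hmon hmax => h ℝ hrefl T S ⟨hmon, hmax⟩,
    fun hκ => ?_⟩
  intro X _ _ _ hrefl T S hT hcv hrb hgp f R hco
  exact main_pos κ hκ hrefl T S hT.1 hT.2 hcv hrb hgp f R hco

end Pool.Agent.Results.MP_438bde_an.RelativeBound
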